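import Pool.Agent.Helper13.HE.St

set_option autoImplicit false

open Module Classical
open scoped LinearAlgebra.Projectivization

namespace Pool.Agent.Helper5.HE

open Pool.Agent.Helper13.HE Pool.Agent.Helper53.PB

universe u v

variable {F : Type u} {V : Type v} [Field F] [AddCommGroup V] [Module F V]

private theorem mem_pe [Fintype V] (Q : QuadraticForm F V) (K : Submodule F V) (u : V) :
    u ∈ pe Q K ↔ ∀ x ∈ K, QuadraticMap.polar Q u x = 0 := by
  unfold pe
  simp

private theorem card_pe [Finite F] [FiniteDimensional F V] [Fintype V] (Q : QuadraticForm F V)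
    (nd : ∀ x, (∀ y, QuadraticMap.polar Q x y = 0) → x = 0) (hd : finrank F V = 10) (K : Submodule F V) :
    (pe Q K).card = Nat.card F ^ (10 - finrank F K) := by
  have hB : (QuadraticMap.polarBilin Q).Nondegenerate := by
    constructor
    · intro x hx
      exact nd x hx
    · intro y hy
      apply nd y
      intro x
      rw [QuadraticMap.polar_comm]
      exact hy x
  have h1 := LinearMap.BilinForm.finrank_orthogonal hB K
  rw [hd] at h1
  have h2 : Nat.card (LinearMap.BilinForm.orthogonal (QuadraticMap.polarBilin Q) K) =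
      Nat.card F ^ finrank F (LinearMap.BilinForm.orthogonal (QuadraticMap.polarBilin Q) K) :=
    Module.natCard_eq_pow_finrank
  rw [← h1, ← h2]
  refine (Nat.subtype_card (p := fun u => u ∈ LinearMap.BilinForm.orthogonal (QuadraticMap.polarBilin Q) K)
    (pe Q K) fun u => ?_).symm
  rw [mem_pe, LinearMap.BilinForm.mem_orthogonal_iff]
  constructor
  · intro h x hx
    change QuadraticMap.polar Q x u = 0
    rw [QuadraticMap.polar_comm]
    exact h x hx
  · intro h x hx
    rw [QuadraticMap.polar_comm]
    exact h x hx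

private theorem pe_sup [Fintype V] (Q : QuadraticForm F V) (K : Submodule F V) (p : V) :
    (pe Q K).filter (fun u => QuadraticMap.polar Q u p = 0) = pe Q (K ⊔ Submodule.span F {p}) := by
  ext u
  rw [Finset.mem_filter, mem_pe, mem_pe]
  constructor
  · rintro ⟨h1, h2⟩ x hx
    obtain ⟨y, hy, z, hz, rfl⟩ := Submodule.mem_sup.1 hx
    obtain ⟨c, rfl⟩ := Submodule.mem_span_singleton.1 hz
    rw [QuadraticMap.polar_add_right, h1 y hy, QuadraticMap.polar_smul_right, h2]
    simp
  · intro h
    exact ⟨fun x hx => h x (Submodule.mem_sup_left hx),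
      h p (Submodule.mem_sup_right (Submodule.mem_span_singleton_self p))⟩

private theorem fr_sup [FiniteDimensional F V] (K : Submodule F V) {p : V} (h : p ∉ K) :
    finrank F (K ⊔ Submodule.span F {p} : Submodule F V) = finrank F K + 1 := by
  have h0 : p ≠ 0 := fun h0 => h (by rw [h0]; exact K.zero_mem)
  have h1 : K ⊓ Submodule.span F {p} = ⊥ := by
    rw [eq_bot_iff]
    intro x hx
    obtain ⟨h2, h3⟩ := Submodule.mem_inf.1 hx
    obtain ⟨c, rfl⟩ := Submodule.mem_span_singleton.1 h3
    rw [Submodule.mem_bot]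
    by_cases hc : c = 0
    · rw [hc, zero_smul]
    · exact absurd ((Submodule.smul_mem_iff K hc).1 h2) h
  have h2 := Submodule.finrank_sup_add_finrank_inf_eq K (Submodule.span F {p})
  rw [h1, finrank_bot, finrank_span_singleton h0] at h2
  omega

private theorem swap_MOM {α β : Type*} (S : Finset α) (T : Finset β) (r : α → β → Prop)
    [∀ u P, Decidable (r u P)] :
    ∑ u ∈ S, (T.filter (fun P => r u P)).card = ∑ P ∈ T, (S.filter (fun u => r u P)).card := by
  simp_rw [Finset.card_filter]
  exact Finset.sum_comm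

private theorem sq_MOM (Q : QuadraticForm F V) (T : Finset (ℙ F V)) (S : Finset V) :
    ∑ u ∈ S, nu Q T u ^ 2 = ∑ p ∈ T ×ˢ T, (S.filter (fun u => QuadraticMap.polar Q u p.1.rep = 0 ∧
      QuadraticMap.polar Q u p.2.rep = 0)).card := by
  rw [← swap_MOM S (T ×ˢ T) (fun u p => QuadraticMap.polar Q u p.1.rep = 0 ∧
      QuadraticMap.polar Q u p.2.rep = 0)]
  apply Finset.sum_congr rfl
  intro u _
  unfold nu
  rw [sq, ← Finset.card_product]
  congr 1
  ext p
  simp only [Finset.mem_product, Finset.mem_filter]
  tauto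

private theorem line_self (P : ℙ F V) : line P P = Submodule.span F {P.rep} := by
  unfold line
  exact sup_idem _

theorem hMOM : StMOM.{u, v} := by
  intro F _ _ V _ _ _ _ Q T H m h j c
  have hq1 : 1 ≤ Nat.card F := Nat.card_pos
  have hc : ∀ K : Submodule F V, (pe Q K).card = Nat.card F ^ (10 - finrank F K) :=
    card_pe Q c.nd c.hd
  have hfr : ∀ K : Submodule F V, finrank F K ≤ 10 := by
    intro K
    rw [← c.hd]
    exact Submodule.finrank_le K
  set q : ℕ := Nat.card F with hqdef
  have hq : ∀ n : ℕ, q * q ^ n = q ^ (n + 1) := fun n => (pow_succ' q n).symm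
  have hline : ∀ P X : ℙ F V, (Finset.univ : Finset V).filter (fun u => QuadraticMap.polar Q u P.rep = 0 ∧
      QuadraticMap.polar Q u X.rep = 0) = pe Q (line P X) := by
    intro P X
    ext u
    rw [Finset.mem_filter, mem_pe]
    constructor
    · rintro ⟨-, h1, h2⟩ x hx
      obtain ⟨y, hy, z, hz, rfl⟩ := Submodule.mem_sup.1 hx
      obtain ⟨a, rfl⟩ := Submodule.mem_span_singleton.1 hy
      obtain ⟨b, rfl⟩ := Submodule.mem_span_singleton.1 hz
      rw [QuadraticMap.polar_add_right, QuadraticMap.polar_smul_right, QuadraticMap.polar_smul_right, h1, h2]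
      simp
    · intro h
      exact ⟨Finset.mem_univ _, h _ (left_mem_line P X), h _ (right_mem_line P X)⟩
  refine ⟨hc, ?_, ?_, ?_⟩
  · intro K
    have h1 : ∑ u ∈ pe Q K, nu Q T u =
        ∑ P ∈ T, ((pe Q K).filter (fun u => QuadraticMap.polar Q u P.rep = 0)).card := swap_MOM _ _ _
    have h2 : ∀ P ∈ T, q * ((pe Q K).filter (fun u => QuadraticMap.polar Q u P.rep = 0)).card =
        q ^ (10 - finrank F K) + if P.rep ∈ K then q ^ (10 - finrank F K) * (q - 1) else 0 := by
      intro P _
      rw [pe_sup, hc]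
      by_cases hP : P.rep ∈ K
      · rw [if_pos hP, sup_eq_left.2 ((Submodule.span_singleton_le_iff_mem _ _).2 hP)]
        obtain ⟨r, hr⟩ : ∃ r, q = r + 1 := ⟨q - 1, by omega⟩
        rw [hr, Nat.add_sub_cancel]
        ring
      · rw [if_neg hP, fr_sup K hP, hq, add_zero]
        congr 1
        have h3 : finrank F (K ⊔ Submodule.span F {P.rep} : Submodule F V) ≤ 10 := hfr _
        rw [fr_sup K hP] at h3
        omega
    rw [h1, Finset.mul_sum, Finset.sum_congr rfl h2, Finset.sum_add_distrib, Finset.sum_const,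
      ← Finset.sum_filter, Finset.sum_const]
    unfold tt
    rw [smul_eq_mul, smul_eq_mul]
    ring
  · rw [sq_MOM]
    have h1 : ∀ p ∈ T ×ˢ T, ((Finset.univ : Finset V).filter (fun u => QuadraticMap.polar Q u p.1.rep = 0 ∧
        QuadraticMap.polar Q u p.2.rep = 0)).card + (if p.1 = p.2 then q ^ 8 else 0) =
        (if p.1 = p.2 then q ^ 9 else 0) + q ^ 8 := by
      rintro ⟨P, X⟩ _
      rw [hline, hc]
      simp only
      by_cases hPX : P = X
      · subst hPX
        rw [if_pos rfl, if_pos rfl, line_self, finrank_span_singleton P.rep_nonzero]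
      · rw [if_neg hPX, if_neg hPX, finrank_line hPX, zero_add, add_zero]
    have h2 := Finset.sum_congr rfl h1
    rw [Finset.sum_add_distrib, Finset.sum_add_distrib, Finset.sum_const, Finset.card_product] at h2
    have h3 : ∀ a : ℕ, ∑ p ∈ T ×ˢ T, (if p.1 = p.2 then a else 0) = T.card * a := by
      intro a
      rw [Finset.sum_product]
      have h4 : ∀ P ∈ T, ∑ X ∈ T, (if P = X then a else 0) = a := by
        intro P hP
        rw [Finset.sum_ite_eq, if_pos hP]
      rw [Finset.sum_congr rfl h4, Finset.sum_const, smul_eq_mul]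
    rw [h3, h3, smul_eq_mul] at h2
    rw [h2]
    ring
  · intro R hR
    rw [sq_MOM]
    have hRT : R ∉ T := c.dis R hR
    have e : ∀ P X : ℙ F V, ((Finset.univ.filter (fun u => QuadraticMap.polar Q u R.rep = 0)).filter
        (fun u => QuadraticMap.polar Q u P.rep = 0 ∧ QuadraticMap.polar Q u X.rep = 0)) =
        pe Q (line P X ⊔ Submodule.span F {R.rep}) := by
      intro P X
      rw [← pe_sup, ← hline]
      ext u
      simp only [Finset.mem_filter, Finset.mem_univ, true_and]
      tauto
    have h1 : ∀ p ∈ T ×ˢ T, ((Finset.univ.filter (fun u => QuadraticMap.polar Q u R.rep = 0)).filter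
        (fun u => QuadraticMap.polar Q u p.1.rep = 0 ∧ QuadraticMap.polar Q u p.2.rep = 0)).card +
        (if p.1 = p.2 then q ^ 7 else 0) + (if p.1 ≠ p.2 ∧ R.rep ∈ line p.1 p.2 then q ^ 7 else 0) =
        (if p.1 = p.2 then q ^ 8 else 0) + (if p.1 ≠ p.2 ∧ R.rep ∈ line p.1 p.2 then q ^ 8 else 0) +
          q ^ 7 := by
      rintro ⟨P, X⟩ hp
      have hP : P ∈ T := (Finset.mem_product.1 hp).1
      have hRP : P ≠ R := fun h => hRT (h ▸ hP)
      rw [e, hc]
      simp only
      by_cases hPX : P = X
      · subst hPX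
        have h2 : line P P ⊔ Submodule.span F {R.rep} = line P R := by
          rw [line_self]
          rfl
        rw [if_pos rfl, if_pos rfl, if_neg (fun h => h.1 rfl), if_neg (fun h => h.1 rfl), h2,
          finrank_line hRP]
        ring
      · by_cases hl : R.rep ∈ line P X
        · rw [if_neg hPX, if_neg hPX, if_pos ⟨hPX, hl⟩, if_pos ⟨hPX, hl⟩,
            sup_eq_left.2 ((Submodule.span_singleton_le_iff_mem _ _).2 hl), finrank_line hPX]
          ring
        · rw [if_neg hPX, if_neg hPX, if_neg (fun h => hl h.2), if_neg (fun h => hl h.2), fr_sup _ hl,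
            finrank_line hPX]
          ring
    have h2 := Finset.sum_congr rfl h1
    rw [Finset.sum_add_distrib, Finset.sum_add_distrib, Finset.sum_add_distrib, Finset.sum_add_distrib,
      Finset.sum_const, Finset.card_product] at h2
    have h3 : ∀ a : ℕ, ∑ p ∈ T ×ˢ T, (if p.1 = p.2 then a else 0) = T.card * a := by
      intro a
      rw [Finset.sum_product]
      have h4 : ∀ P ∈ T, ∑ X ∈ T, (if P = X then a else 0) = a := by
        intro P hP
        rw [Finset.sum_ite_eq, if_pos hP]
      rw [Finset.sum_congr rfl h4, Finset.sum_const, smul_eq_mul]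
    have h4 : ∀ a : ℕ, ∑ p ∈ T ×ˢ T, (if p.1 ≠ p.2 ∧ R.rep ∈ line p.1 p.2 then a else 0) = lam T R * a := by
      intro a
      rw [← Finset.sum_filter, Finset.sum_const, smul_eq_mul]
      rfl
    rw [h3, h3, h4, h4, smul_eq_mul] at h2
    rw [h2]
    ring

end Pool.Agent.Helper5.HE
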